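import Pool.Agent.H39.HW.SBas

set_option autoImplicit false
open Classical Finset

namespace Pool.Agent.H28.HW

open Pool.Agent.H39.HW Pool.Agent.H39.HW.Sc

theorem t_MMD : S_MMD := by
  intro x hx
  have hB := hx.b1_le_B
  have h01 := hx.b0_lt_b1
  have hJ := hx.J1
  refine ⟨?_, ?_⟩
  · unfold Prm.R Prm.b1
    rw [Nat.card_Icc]
    omega
  · intro a ha
    have ha' := hx.mem_R.mp ha
    have hmm : x.mm a = (x.R.erase a).image fun b => sm x.B a b := rfl
    have hinj : Set.InjOn (fun b => sm x.B a b) ((x.R.erase a : Finset ℕ) : Set ℕ) := by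
      intro b hb c hc hbc
      have hb' := hx.mem_R.mp (Finset.mem_of_mem_erase hb)
      have hc' := hx.mem_R.mp (Finset.mem_of_mem_erase hc)
      simp only [sm] at hbc
      split_ifs at hbc <;> omega
    refine ⟨?_, ?_, ?_, ?_⟩
    · intro β
      rw [hmm, Finset.mem_image]
      constructor
      · rintro ⟨b, hb, rfl⟩
        have hba := Finset.ne_of_mem_erase hb
        have hb' := hx.mem_R.mp (Finset.mem_of_mem_erase hb)
        unfold sm Prm.adj
        refine ⟨?_, ?_, ?_⟩
        · split_ifs <;> omega
        · split_ifs <;> omega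
        · split_ifs <;> omega
      · rintro ⟨h1, h2, h3⟩
        unfold Prm.adj at h2
        by_cases h4 : β ≤ a + x.K
        · have h5 : β + x.K < a := by
            by_contra h
            exact h2 ⟨h4, by omega⟩
          refine ⟨β + x.B - a, ?_, ?_⟩
          · rw [Finset.mem_erase, hx.mem_R]
            refine ⟨?_, ?_, ?_⟩
            · intro h
              apply h3
              unfold sm
              split_ifs <;> omega
            · omega
            · omega
          · unfold sm
            split_ifs <;> omega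
        · refine ⟨β - a, ?_, ?_⟩
          · rw [Finset.mem_erase, hx.mem_R]
            refine ⟨?_, ?_, ?_⟩
            · intro h
              apply h3
              unfold sm
              split_ifs <;> omega
            · omega
            · omega
          · unfold sm
            split_ifs <;> omega
    · rw [hmm, Finset.card_image_of_injOn hinj, Finset.card_erase_add_one ha]
    · unfold sm
      split_ifs <;> omega
    · unfold sm Prm.adj
      split_ifs <;> omega

theorem card_mod (L q c u : ℕ) (hc : c < L) :
    ((Finset.Ico (u * (L * q)) (u * (L * q) + L * q)).filter fun r => r % L = c).card = q := by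
  have hL : 0 < L := by omega
  have h : ((Finset.Ico (u * (L * q)) (u * (L * q) + L * q)).filter fun r => r % L = c)
      = (range q).image fun i => u * (L * q) + (L * i + c) := by
    ext r
    simp only [Finset.mem_filter, Finset.mem_Ico, Finset.mem_image, Finset.mem_range]
    constructor
    · rintro ⟨⟨h1, h2⟩, h3⟩
      obtain ⟨s, rfl⟩ := Nat.exists_eq_add_of_le h1
      have h4 : s < L * q := by omega
      have h5 : s % L = c := by
        rw [show u * (L * q) + s = s + L * (u * q) by ring, Nat.add_mul_mod_self_left] at h3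
        exact h3
      refine ⟨s / L, Nat.div_lt_of_lt_mul h4, ?_⟩
      rw [← h5, Nat.div_add_mod]
    · rintro ⟨i, hi, rfl⟩
      have h6 : L * i + L ≤ L * q := by
        rw [← Nat.mul_succ]
        exact Nat.mul_le_mul_left L hi
      refine ⟨⟨by omega, by omega⟩, ?_⟩
      rw [show u * (L * q) + (L * i + c) = c + L * (u * q + i) by ring,
        Nat.add_mul_mod_self_left, Nat.mod_eq_of_lt hc]
  rw [h, Finset.card_image_of_injective, Finset.card_range]
  intro i j hij
  simp only [add_right_inj, add_left_inj] at hij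
  exact Nat.eq_of_mul_eq_mul_left hL hij

theorem t_WIN (hAVA : S_AVA) : S_WIN := by
  intro x hx a ha
  have hB := hx.b1_le_B
  have h01 := hx.b0_lt_b1
  have hJ := hx.J1
  have hKJ := hx.KJ
  have hKg := hx.Kg
  have hW1 := hx.W1'
  have hKM := hx.KM
  have hb0 : x.b0 = x.K + x.J := rfl
  have hb1 : x.b1 = x.K + x.J + x.M := rfl
  have hmid : ∀ β, β ∈ x.mid ↔ x.b0 ≤ β ∧ β < x.b1 := fun β => Finset.mem_Ico
  have hdiv : ∀ n k : ℕ, n / x.W = k → k * x.W ≤ n ∧ n < k * x.W + x.W := by
    intro n k h
    rw [← h]
    constructor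
    · exact Nat.div_mul_le_self n x.W
    · exact Nat.lt_div_mul_add (by omega)
  -- the window
  have key : ∀ b ∈ x.R, (¬ x.b1 ≤ b + x.K → x.b0 + (x.win b + 1) * x.W ≤ b + x.K ∧
      b + x.K < x.b0 + (x.win b + 1) * x.W + x.W) ∧
      (x.b1 ≤ b + x.K → x.b0 + x.win b * x.W ≤ b - x.K + x.W ∧
      b - x.K + x.W < x.b0 + x.win b * x.W + x.W) := by
    intro b hb
    have hb' := hx.mem_R.mp hb
    constructor
    · intro h
      have hw : x.win b = (b + x.K - x.b0) / x.W - 1 := by
        unfold Prm.win
        rw [if_neg h]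
      have h1 : 1 ≤ (b + x.K - x.b0) / x.W := by
        rw [Nat.one_le_div_iff (by omega)]
        omega
      have h2 := hdiv (b + x.K - x.b0) _ rfl
      have h3 : x.win b + 1 = (b + x.K - x.b0) / x.W := by omega
      rw [← h3] at h2
      omega
    · intro h
      have hw : x.win b = (b - x.K - x.b0) / x.W + 1 := by
        unfold Prm.win
        rw [if_pos h]
      have h2 := hdiv (b - x.K - x.b0) _ rfl
      have h3 : x.win b * x.W = (b - x.K - x.b0) / x.W * x.W + x.W := by
        rw [hw, Nat.succ_mul]
      omega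
  have ha' := hx.mem_R.mp ha
  obtain ⟨k1, k2⟩ := key a ha
  have hsucc : (x.win a + 1) * x.W = x.win a * x.W + x.W := Nat.succ_mul _ _
  have hend : x.b0 + (x.win a + 1) * x.W ≤ x.b1 := by
    by_cases h : x.b1 ≤ a + x.K
    · have := k2 h
      omega
    · have := k1 h
      omega
  refine ⟨?_, hend, ?_, ?_⟩
  · intro β hβ hwβ
    obtain ⟨hβ0, hβ1⟩ := (hmid β).mp hβ
    have h2 := hdiv _ _ hwβ
    have hβB : β < x.B := by omega
    obtain ⟨-, -, -, av4, av5, -, -⟩ := hAVA x hx a ha β hβB
    unfold Prm.adj
    by_cases h : x.b1 ≤ a + x.K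
    · have h3 := k2 h
      have h4 : β + x.g + 1 + x.e ≤ a := by omega
      exact ⟨av5 hβ0 hβ1 h4, by omega, by omega⟩
    · have h3 := k1 h
      have h4 : a + x.g + 1 + x.e ≤ β := by omega
      exact ⟨av4 hβ0 hβ1 h4, by omega, by omega⟩
  · intro P hP
    have hL1 := hx.L1
    have hc : 4 * x.h ^ 2 + P < x.L := by
      rw [hL1]
      have : 0 ≤ x.h ^ 2 := Nat.zero_le _
      omega
    have h := card_mod x.L x.q (4 * x.h ^ 2 + P) (x.win a) hc
    have hS : x.S P a = ((Finset.Ico (x.win a * (x.L * x.q))
        (x.win a * (x.L * x.q) + x.L * x.q)).filter fun r => r % x.L = 4 * x.h ^ 2 + P).image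
        (fun r => x.b0 + r) := by
      have hWL : x.W = x.L * x.q := rfl
      rw [← hWL]
      ext β
      simp only [Prm.S, Finset.mem_filter, Finset.mem_image, hmid, Finset.mem_Ico]
      constructor
      · rintro ⟨⟨h1, h2⟩, h3, h4⟩
        have h5 := hdiv _ _ h3
        exact ⟨β - x.b0, ⟨⟨by omega, by omega⟩, h4⟩, by omega⟩
      · rintro ⟨r, ⟨⟨h1, h2⟩, h3⟩, rfl⟩
        refine ⟨⟨by omega, by omega⟩, ?_, ?_⟩
        · rw [Nat.add_sub_cancel_left]
          apply (Nat.div_eq_iff (by omega : 0 < x.W)).mpr
          constructor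
          · exact h1
          · omega
        · rw [Nat.add_sub_cancel_left]
          exact h3
    rw [hS, Finset.card_image_of_injective, h]
    intro i j hij
    simpa using hij
  · have hsub : (x.R.filter fun b => x.win b = x.win a) ⊆
        Finset.Ico (x.b0 + (x.win a + 1) * x.W - x.K) (x.b0 + (x.win a + 1) * x.W - x.K + x.W) ∪
        Finset.Ico (x.b0 + x.win a * x.W + x.K - x.W) (x.b0 + x.win a * x.W + x.K - x.W + x.W) := by
      intro b hb
      rw [Finset.mem_filter] at hb
      obtain ⟨hb, hw⟩ := hb
      have hb' := hx.mem_R.mp hb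
      obtain ⟨c1, c2⟩ := key b hb
      rw [hw] at c1 c2
      rw [Finset.mem_union, Finset.mem_Ico, Finset.mem_Ico]
      by_cases h : x.b1 ≤ b + x.K
      · right
        have := c2 h
        omega
      · left
        have := c1 h
        omega
    refine (Finset.card_le_card hsub).trans ((Finset.card_union_le _ _).trans ?_)
    rw [Nat.card_Ico, Nat.card_Ico]
    omega

end Pool.Agent.H28.HW
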